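import Pool.Agent.H51.MF.Base

/-! # TI: tight vectors. -/

set_option linter.style.haveILetI false
set_option linter.unusedSectionVars false
set_option autoImplicit false

namespace Pool.Agent.H51.MF

open Module Pool.Agent.H51.T2

universe u v

variable {K : Type v} [Field K] {A : Type u} [Ring A] [Algebra K A]

/-- Both signs of `CS`. -/
theorem TI_cs (hCS : S_CS K A) (c : Coo K A) (f₁ : TC K A) (η : Fin c.n → ℤ) (X : FM K A)
    (hX : InW f₁ X)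
    (h : ∀ (N : FM K A) (T S : Submodule A X), SimW f₁ N → T ≤ S → InW f₁ (X.sub T) →
      InW f₁ (X.sub S) → c.v N = c.v (X.sub S) - c.v (X.sub T) → η ⬝ᵥ c.v N = 0) :
    η ⬝ᵥ c.v X = 0 := by
  have h1 : 0 ≤ η ⬝ᵥ c.v X := hCS c f₁ η X hX fun N T S hN hTS hT hS hv =>
    le_of_eq (h N T S hN hTS hT hS hv).symm
  have h2 : 0 ≤ (-η) ⬝ᵥ c.v X := hCS c f₁ (-η) X hX fun N T S hN hTS hT hS hv => by
    rw [neg_dotProduct, h N T S hN hTS hT hS hv, neg_zero]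
  rw [neg_dotProduct] at h2
  omega

/-- An object of `W(f₀ + g)` has `θ = 0`. -/
theorem TI_zero {c : Coo K A} {f₀ g : TC K A} {θ : Fin c.n → ℤ} (hg : Rz c f₀ g θ)
    {X : FM K A} (hX : InW (f₀.add g) X) : InW f₀ X ∧ θ ⬝ᵥ c.v X = 0 := by
  obtain ⟨h1, h2, h3⟩ := inW_addTC.1 hX
  refine ⟨h1, ?_⟩
  rw [← hg.cl X h1]
  exact inW_cl ⟨h2, h3⟩

theorem s_TI (K : Type v) [Field K] (A : Type u) [Ring A] [Algebra K A] (hCS : S_CS K A)
    (hNUM : S_NUM K A) : S_TI K A := by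
  intro c f₀ g Y Z θ η hf₀ hY hZ hg hF hη w hw
  obtain ⟨hwV, hw0⟩ := hw
  rcases hwV with ⟨S₀, hS₀, rfl⟩ | ⟨S₀, hS₀, rfl⟩
  · -- submodules of `Y`
    have hFb : FbN c f₀ θ Y := by
      intro S hS
      have := hF.1 _ (Or.inl ⟨S, hS, rfl⟩)
      rw [dotProduct_neg] at this
      omega
    have hHH : HH g.f (Y.sub S₀) := hh_sub ((hNUM c f₀ g θ Y hf₀ hg hY).2.2 hFb) S₀
    have h0 : θ ⬝ᵥ c.v (Y.sub S₀) = 0 := by
      rw [dotProduct_neg] at hw0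
      omega
    have hcl : g.cl (Y.sub S₀) = 0 := by rw [hg.cl _ hS₀, h0]
    have hU : InW (f₀.add g) (Y.sub S₀) := inW_addTC.2 ⟨hS₀, tt_of_hh hHH hcl, hHH⟩
    have hmem : ∀ S : Submodule A (Y.sub S₀), InW (f₀.add g) ((Y.sub S₀).sub S) →
        - c.v ((Y.sub S₀).sub S) ∈ Tight (VV c f₀ Y Z) θ := by
      intro S hS
      obtain ⟨hS1, hS2⟩ := TI_zero hg hS
      refine ⟨Or.inl ⟨S.map S₀.subtype, inW_iso (subSub Y S₀ S) hS1, ?_⟩, ?_⟩
      · rw [v_iso c (subSub Y S₀ S)]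
      · rw [dotProduct_neg, hS2, neg_zero]
    rw [dotProduct_neg, neg_eq_zero]
    refine TI_cs hCS c (f₀.add g) η _ hU fun N T S hN _ hT hS hv => hη N hN fun ζ hζ => ?_
    have e1 := hζ _ (hmem S hS)
    have e2 := hζ _ (hmem T hT)
    rw [dotProduct_neg] at e1 e2
    rw [hv, dotProduct_sub]
    omega
  · -- quotients of `Z`
    have hTb : TbN c f₀ θ Z := fun S hS => hF.1 _ (Or.inr ⟨S, hS, rfl⟩)
    have hTT : TT g.f (Z.quot S₀) := tt_quot ((hNUM c f₀ g θ Z hf₀ hg hZ).1.2 hTb) S₀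
    have hcl : g.cl (Z.quot S₀) = 0 := by rw [hg.cl _ hS₀, hw0]
    have hU : InW (f₀.add g) (Z.quot S₀) := inW_addTC.2 ⟨hS₀, hTT, hh_of_tt hTT hcl⟩
    have hmem : ∀ S : Submodule A (Z.quot S₀), InW (f₀.add g) ((Z.quot S₀).sub S) →
        c.v ((Z.quot S₀).quot S) ∈ Tight (VV c f₀ Y Z) θ := by
      intro S hS
      obtain ⟨hS1, hS2⟩ := TI_zero hg (inW_quot_of_sub hU hS)
      refine ⟨Or.inr ⟨S.comap S₀.mkQ, inW_iso (quotQuot Z S₀ S) hS1, ?_⟩, hS2⟩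
      rw [v_iso c (quotQuot Z S₀ S)]
    refine TI_cs hCS c (f₀.add g) η _ hU fun N T S hN _ hT hS hv => hη N hN fun ζ hζ => ?_
    have e1 := hζ _ (hmem S hS)
    have e2 := hζ _ (hmem T hT)
    have a1 := v_add c (Z.quot S₀) S
    have a2 := v_add c (Z.quot S₀) T
    have hv' : c.v N = c.v ((Z.quot S₀).quot T) - c.v ((Z.quot S₀).quot S) := by
      rw [hv]
      have : c.v ((Z.quot S₀).sub S) + c.v ((Z.quot S₀).quot S) =
          c.v ((Z.quot S₀).sub T) + c.v ((Z.quot S₀).quot T) := by rw [← a1, ← a2]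
      rw [sub_eq_sub_iff_add_eq_add, this, add_comm]
    rw [hv', dotProduct_sub, e1, e2, sub_zero]

end Pool.Agent.H51.MF
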